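import Pool.Agent.C4U.Stmts

/-!
# Squad C4U, row MAT: good states with all registers in use and independent sets
-/

set_option autoImplicit false

namespace Pool.Agent.C4U.H34

open Pool.Agent.C4U

/-- **Row MAT** -/
theorem mat (h1 : ClqStmt) (h2 : CovStmt) (h3 : NstStmt) (h4 : NsbStmt) (h5 : DyeStmt)
    (h6 : StlStmt) (h7 : PrsStmt) : MatStmt := by
  intro V hok hJ him
  obtain ⟨a, b, hab, hab2, htau, hbk⟩ := h7
  have hdd : V.dd = 2 * V.k + V.k * (V.k - 1) / 2 := rfl
  have hix : ∀ i j, i < j → j < V.k → V.ix i j < V.dd := by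
    intro i j hij hj
    have := htau V.k i j hij hj
    unfold Gr.ix Gr.dd
    omega
  constructor
  · rintro ⟨c, -, hln, hc1, hc2⟩
    rw [hln] at hc2
    have hx := hc2 (by rw [hdd]; omega)
    choose! x hx1 hx2 hx3 hx4 using hx
    refine ⟨x, hx1, fun j hj i hij hcl => ?_⟩
    have hi : i < V.k := hij.trans hj
    have e1 := (hx3 i hi j hj hij (hix i j hij hj)).1
    have e2 := (hx4 j hj i hi hij (hix i j hij hj)).1
    have e3 := (h4 V (V.K c i) (V.K c j)).2.2 (x i) (x j) (hx1 i hi) (hx2 i hi) hcl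
    have e4 : V.r c j (x i) < V.t c i j (x j) := lt_of_lt_of_le e1 e2
    unfold Gr.r Gr.t at e4
    omega
  · rintro ⟨x, hx1, hx2⟩
    have hcov := fun i (hi : i < V.k) => h2 V him (x i) (hx1 i hi)
    choose! A B hA hB hJA hJB hQ using hcov
    -- the first registers
    obtain ⟨c0, hc0⟩ : ∃ c0 : ℕ → ℕ, ∀ e, c0 e = if e % 2 = 0 then A (e / 2) + 1
        else B (e / 2) + 1 := ⟨fun e => if e % 2 = 0 then A (e / 2) + 1 else B (e / 2) + 1,
        fun _ => rfl⟩
    have hc0a : ∀ i, c0 (2 * i) = A i + 1 := by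
      intro i
      have e1 : (2 * i) % 2 = 0 := by omega
      have e2 : (2 * i) / 2 = i := by omega
      rw [hc0, if_pos e1, e2]
    have hc0b : ∀ i, c0 (2 * i + 1) = B i + 1 := by
      intro i
      have e1 : ¬ (2 * i + 1) % 2 = 0 := by omega
      have e2 : (2 * i + 1) / 2 = i := by omega
      rw [hc0, if_neg e1, e2]
    have hK0 : ∀ i v, V.K c0 i v ↔ V.Q (A i) (B i) v := by
      intro i v
      unfold Gr.K
      rw [hc0a, hc0b]
      exact Iff.rfl
    have hrt : ∀ i j, i < j → j < V.k → V.rr (V.K c0 j) (x i) < V.tt (V.K c0 i) (V.K c0 j) (x j) := by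
      intro i j hij hj
      have hi : i < V.k := hij.trans hj
      have e1 := h3 V hok (V.K c0 i) (V.K c0 j) (fun v hv => ((hK0 i v).mp hv).1)
        (fun v hv => ((hK0 j v).mp hv).1)
        (fun u v hu hv => h1 V hok hJ him (A i) (B i) (hJA i hi) (hJB i hi) u v
          ((hK0 i u).mp hu) ((hK0 i v).mp hv))
        (fun u v hu hv => h1 V hok hJ him (A j) (B j) (hJA j hj) (hJB j hj) u v
          ((hK0 j u).mp hu) ((hK0 j v).mp hv))
        (x i) (x j) ((hK0 i _).mpr (hQ i hi)) ((hK0 j _).mpr (hQ j hj))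
      by_contra hcon
      push Not at hcon
      exact hx2 j hj i hij (e1.mpr hcon)
    have hnode : ∀ i j, ∃ v, i < j → j < V.k → 1 ≤ v ∧
        v ≤ V.tt (V.K c0 i) (V.K c0 j) (x j) ∧ Lf v (V.rr (V.K c0 j) (x i)) ∧
        Rt v (V.tt (V.K c0 i) (V.K c0 j) (x j)) := by
      intro i j
      by_cases hij : i < j ∧ j < V.k
      · obtain ⟨v, hv⟩ := h5 _ _ (hrt i j hij.1 hij.2)
        exact ⟨v, fun _ _ => hv⟩
      · exact ⟨0, fun p q => absurd ⟨p, q⟩ hij⟩
    choose nd hnd using hnode
    obtain ⟨c, hc⟩ : ∃ c : ℕ → ℕ, ∀ e, c e = if e < 2 * V.k then c0 e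
        else if e < V.dd then nd (a (e - 2 * V.k)) (b (e - 2 * V.k)) else 0 :=
      ⟨fun e => if e < 2 * V.k then c0 e
        else if e < V.dd then nd (a (e - 2 * V.k)) (b (e - 2 * V.k)) else 0, fun _ => rfl⟩
    have hclow : ∀ e, e < 2 * V.k → c e = c0 e := fun e he => by rw [hc, if_pos he]
    have hK : ∀ i, i < V.k → V.K c i = V.K c0 i := by
      intro i hi
      funext v
      unfold Gr.K
      rw [hclow (2 * i) (by omega), hclow (2 * i + 1) (by omega)]
    have hcix : ∀ i j, i < j → j < V.k → c (V.ix i j) = nd i j := by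
      intro i j hij hj
      have e1 : ¬ V.ix i j < 2 * V.k := by
        unfold Gr.ix
        omega
      have e2 : V.ix i j - 2 * V.k = j * (j - 1) / 2 + i := by
        unfold Gr.ix
        omega
      rw [hc, if_neg e1, if_pos (hix i j hij hj), e2, (hab i j hij).1, (hab i j hij).2]
    have hcr : ∀ e, e < V.dd → 1 ≤ c e ∧ c e ≤ V.N + 1 := by
      intro e he
      by_cases he2 : e < 2 * V.k
      · rw [hclow e he2, hc0]
        have hi : e / 2 < V.k := by omega
        have eA := hA (e / 2) hi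
        have eB := hB (e / 2) hi
        split_ifs
        · omega
        · omega
      · have e0 : e - 2 * V.k < V.k * (V.k - 1) / 2 := by
          rw [hdd] at he
          omega
        obtain ⟨p1, p2⟩ := hab2 (e - 2 * V.k)
        have p3 := hbk V.k _ e0
        rw [hc, if_neg he2, if_pos he]
        obtain ⟨q1, q2, -, -⟩ := hnd _ _ p1 p3
        refine ⟨q1, q2.trans ?_⟩
        exact (h4 V _ _).2.1 _
    have hst : IsSt V.dd (V.N + 1) c := by
      refine ⟨V.dd, le_refl _, hcr, fun e he => ?_⟩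
      have e1 : ¬ e < 2 * V.k := by
        rw [hdd] at he
        omega
      rw [hc, if_neg e1, if_neg (by omega)]
    have hln : ln V.dd c = V.dd := by
      obtain ⟨s1, -, s3, -⟩ := h6 V.dd (V.N + 1) c (by omega) hst
      by_contra hne
      have hlt : ln V.dd c < V.dd := lt_of_le_of_ne s1 hne
      have z1 := s3 (ln V.dd c) (le_refl _)
      have z2 := (hcr _ hlt).1
      omega
    refine ⟨c, hst, hln, ?_, ?_⟩
    · intro e _ he2
      rw [hclow e he2, hc0]
      have hi : e / 2 < V.k := by omega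
      have eA := hA (e / 2) hi
      have eB := hB (e / 2) hi
      split_ifs
      · refine ⟨by omega, ?_⟩
        have : A (e / 2) + 1 - 1 = A (e / 2) := by omega
        rw [this]
        exact hJA _ hi
      · refine ⟨by omega, ?_⟩
        have : B (e / 2) + 1 - 1 = B (e / 2) := by omega
        rw [this]
        exact hJB _ hi
    · intro _ i hi
      refine ⟨x i, hx1 i hi, ?_, ?_, ?_⟩
      · rw [hK i hi]
        exact (hK0 i _).mpr (hQ i hi)
      · intro j hj hij _
        rw [hcix i j hij hj]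
        unfold Gr.r
        rw [hK j hj]
        exact (hnd i j hij hj).2.2.1
      · intro j hj hji _
        rw [hcix j i hji hi]
        unfold Gr.t
        rw [hK i hi, hK j hj]
        exact (hnd j i hji hi).2.2.2

end Pool.Agent.C4U.H34
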